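import Pool.Agent.H174.GP.StP

/-!
Project GP (helper174): Hoeffding's inequality for sums of odd bounded functions of the
coordinates, by helper261.
-/

open MeasureTheory ProbabilityTheory Finset

namespace Pool.Agent.H261.GP174
open Pool.Agent.H174.GP

/-- An odd measurable function has mean zero under `lap`. -/
theorem integral_odd (h1 : S_L3) (f : ℝ → ℝ) (hf : Measurable f) (hodd : ∀ x, f (-x) = - f x) :
    ∫ x, f x ∂lap = 0 := by
  have h2 : ∫ x, f x ∂(Measure.map (fun x : ℝ => -x) lap) = ∫ x, f (-x) ∂lap :=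
    integral_map (by fun_prop) hf.aestronglyMeasurable
  rw [h1.1] at h2
  simp only [hodd] at h2
  rw [integral_neg] at h2
  linarith

/-- One-sided Hoeffding bound. -/
theorem hoeff_one (h1 : S_L3) (J : Finset ℕ) (φ : ℕ → ℝ → ℝ) (a : ℕ → ℝ) (V u : ℝ)
    (hm : ∀ j ∈ J, Measurable (φ j)) (hodd : ∀ j ∈ J, ∀ x, φ j (-x) = - φ j x)
    (ha : ∀ j ∈ J, 0 ≤ a j) (hb : ∀ j ∈ J, ∀ x, |φ j x| ≤ a j) (hV : 0 < V)
    (hs : (∑ j ∈ J, (a j) ^ 2) ≤ V) (hu : 0 ≤ u) :
    PP.real {ω | u ≤ ∑ j ∈ J, φ j (ω j)} ≤ Real.exp (-(u ^ 2 / (2 * V))) := by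
  classical
  -- a globally measurable family
  set ψ : ℕ → ℝ → ℝ := fun j => if j ∈ J then φ j else fun _ => 0 with hψ
  have hψJ : ∀ j ∈ J, ψ j = φ j := fun j hj => by simp [hψ, hj]
  have hψm : ∀ j, Measurable (ψ j) := by
    intro j
    by_cases hj : j ∈ J
    · rw [hψJ j hj]; exact hm j hj
    · simp only [hψ, hj, if_false]; exact measurable_const
  have hind : iIndepFun (fun j => fun ω : ℕ → ℝ => ψ j (ω j)) PP :=
    iIndepFun_infinitePi (P := fun _ : ℕ => lap) (X := fun j => ψ j) hψm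
  have hsub : ∀ j ∈ J, HasSubgaussianMGF (fun ω : ℕ → ℝ => ψ j (ω j))
      ((‖a j - (-a j)‖₊ / 2) ^ 2) PP := by
    intro j hj
    rw [hψJ j hj]
    apply hasSubgaussianMGF_of_mem_Icc_of_integral_eq_zero
    · exact ((hm j hj).comp (measurable_pi_apply j)).aemeasurable
    · refine Filter.Eventually.of_forall (fun ω => ?_)
      have := hb j hj (ω j)
      rw [abs_le] at this
      exact ⟨this.1, this.2⟩
    · have hmp : MeasurePreserving (fun ω : ℕ → ℝ => ω j) PP lap :=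
        measurePreserving_eval_infinitePi (fun _ : ℕ => lap) j
      have h3 : ∫ ω, φ j (ω j) ∂PP = ∫ x, φ j x ∂lap := by
        have h4 := integral_map (μ := PP) (φ := fun ω : ℕ → ℝ => ω j) (f := φ j)
          hmp.measurable.aemeasurable (hm j hj).aestronglyMeasurable
        rw [hmp.map_eq] at h4
        exact h4.symm
      rw [h3]
      exact integral_odd h1 (φ j) (hm j hj) (hodd j hj)
  have hmain := HasSubgaussianMGF.measure_sum_ge_le_of_iIndepFun hind hsub hu
  have hset : {ω : ℕ → ℝ | u ≤ ∑ j ∈ J, ψ j (ω j)} = {ω | u ≤ ∑ j ∈ J, φ j (ω j)} := by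
    ext ω
    simp only [Set.mem_ofPred_eq]
    rw [Finset.sum_congr rfl (fun j hj => by rw [hψJ j hj])]
  rw [hset] at hmain
  have hc : ((∑ j ∈ J, ((‖a j - (-a j)‖₊ / 2) ^ 2 : NNReal) : NNReal) : ℝ) = ∑ j ∈ J, (a j) ^ 2 := by
    push_cast
    refine Finset.sum_congr rfl (fun j hj => ?_)
    have : ‖a j - (-a j)‖ = 2 * a j := by
      rw [Real.norm_eq_abs, sub_neg_eq_add, abs_of_nonneg (by linarith [ha j hj])]; ring
    rw [this]; ring
  rcases eq_or_lt_of_le (Finset.sum_nonneg (fun j (_ : j ∈ J) => sq_nonneg (a j))) with h0 | h0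
  · -- all `a j = 0`
    have hz : ∀ j ∈ J, a j = 0 := by
      intro j hj
      have := (Finset.sum_eq_zero_iff_of_nonneg (fun j (_ : j ∈ J) => sq_nonneg (a j))).1 h0.symm j hj
      exact pow_eq_zero_iff (two_ne_zero) |>.1 this
    rcases eq_or_lt_of_le hu with hu0 | hu0
    · rw [← hu0]
      simp only [ne_eq, OfNat.ofNat_ne_zero, not_false_eq_true, zero_pow, zero_div, neg_zero,
        Real.exp_zero]
      exact measureReal_le_one
    · have hempty : {ω : ℕ → ℝ | u ≤ ∑ j ∈ J, φ j (ω j)} = ∅ := by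
        ext ω
        simp only [Set.mem_ofPred_eq, Set.mem_empty_iff_false, iff_false, not_le]
        rw [Finset.sum_eq_zero (fun j hj => ?_)]
        · exact hu0
        · have := hb j hj (ω j)
          rw [hz j hj] at this
          exact abs_nonpos_iff.1 this
      rw [hempty]
      simp only [measureReal_empty]
      positivity
  · refine hmain.trans ?_
    rw [hc]
    apply Real.exp_le_exp.2
    rw [neg_div]
    apply neg_le_neg
    apply div_le_div_of_nonneg_left (sq_nonneg u) (by linarith) (by linarith)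

theorem gp_hoeff (h1 : S_L3) : Pool.Agent.H174.GP.S_hoeff := by
  intro J φ a V u hm hodd ha hb hV hs hu
  have hA := hoeff_one h1 J φ a V u hm hodd ha hb hV hs hu
  have hB := hoeff_one h1 J (fun j x => - φ j x) a V u (fun j hj => (hm j hj).neg)
    (fun j hj x => by rw [hodd j hj x]) ha (fun j hj x => by rw [abs_neg]; exact hb j hj x) hV hs hu
  have hsubset : {ω : ℕ → ℝ | u ≤ |∑ j ∈ J, φ j (ω j)|} ⊆
      {ω | u ≤ ∑ j ∈ J, φ j (ω j)} ∪ {ω | u ≤ ∑ j ∈ J, - φ j (ω j)} := by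
    intro ω hω
    simp only [Set.mem_ofPred_eq, Set.mem_union] at hω ⊢
    rw [Finset.sum_neg_distrib]
    exact le_abs.1 hω
  calc PP.real {ω | u ≤ |∑ j ∈ J, φ j (ω j)|}
      ≤ PP.real ({ω | u ≤ ∑ j ∈ J, φ j (ω j)} ∪ {ω | u ≤ ∑ j ∈ J, - φ j (ω j)}) :=
        measureReal_mono hsubset
    _ ≤ PP.real {ω | u ≤ ∑ j ∈ J, φ j (ω j)} + PP.real {ω | u ≤ ∑ j ∈ J, - φ j (ω j)} :=
        measureReal_union_le _ _
    _ ≤ 2 * Real.exp (-(u ^ 2 / (2 * V))) := by linarith

end Pool.Agent.H261.GP174
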