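import Pool.Agent.H174.GP.StH

/-!
# Decomposition at the maximum of the integrated walk (by helper261)
-/

set_option autoImplicit false

open MeasureTheory ProbabilityTheory Finset

namespace Pool.Agent.H261.GP174.AM

open Pool.Agent.H174.GP

/-- shift and change of signs -/
def T (m : ℕ) (ω : ℕ → ℝ) : ℕ → ℝ := fun j => -ω (j + m)

theorem mp_neg (h1 : S_L3) : MeasurePreserving (fun ω : ℕ → ℝ => fun j => - ω j) PP PP := by
  refine ⟨measurable_pi_lambda _ fun j => (measurable_pi_apply j).neg, ?_⟩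
  have h := Measure.infinitePi_map_pi (μ := fun _ : ℕ => lap) (f := fun _ : ℕ => fun x : ℝ => -x)
    (fun _ => measurable_neg)
  unfold PP
  rw [h]
  congr 1
  funext _
  exact h1.1

theorem mp_shift (m : ℕ) : MeasurePreserving (fun ω : ℕ → ℝ => fun j => ω (j + m)) PP PP := by
  have hm : Measurable (fun ω : ℕ → ℝ => fun j => ω (j + m)) :=
    measurable_pi_lambda _ fun j => measurable_pi_apply _
  refine ⟨hm, ?_⟩
  refine Measure.eq_infinitePi (μ := fun _ : ℕ => lap) ?_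
  intro s t ht
  rw [Measure.map_apply hm (MeasurableSet.pi s.countable_toSet fun i _ => ht i)]
  have hpre : (fun ω : ℕ → ℝ => fun j => ω (j + m)) ⁻¹' (Set.pi (s : Set ℕ) t) =
      Set.pi ((s.image (fun j => j + m) : Finset ℕ) : Set ℕ) (fun i => t (i - m)) := by
    ext ω
    simp only [Set.mem_preimage, Set.mem_pi, Finset.mem_coe, Finset.mem_image]
    constructor
    · rintro h _ ⟨j, hj, rfl⟩
      rw [Nat.add_sub_cancel]
      exact h j hj
    · intro h j hj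
      have := h (j + m) ⟨j, hj, rfl⟩
      rwa [Nat.add_sub_cancel] at this
  rw [hpre]
  unfold PP
  rw [Measure.infinitePi_pi _ (fun i _ => ht (i - m)),
    Finset.prod_image (fun a _ b _ h => Nat.add_right_cancel h)]
  refine Finset.prod_congr rfl fun j _ => ?_
  rw [Nat.add_sub_cancel]

theorem mp_T (h1 : S_L3) (m : ℕ) : MeasurePreserving (T m) PP PP :=
  (mp_neg h1).comp (mp_shift m)

theorem Iw_zero (ω : ℕ → ℝ) : Iw ω 0 = 0 := by
  unfold Iw
  simp

theorem Iw_succ (ω : ℕ → ℝ) (k : ℕ) : Iw ω (k + 1) = Iw ω k + S ω (k + 1) := by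
  unfold Iw
  rw [Finset.sum_Icc_succ_top (by omega)]

theorem S_succ (ω : ℕ → ℝ) (k : ℕ) : S ω (k + 1) = S ω k + ω (k + 1) := by
  unfold S
  rw [Finset.sum_Icc_succ_top (by omega)]

theorem Iw_sub (ω : ℕ → ℝ) (a k : ℕ) :
    Iw ω (a + k) - Iw ω a = ∑ j ∈ Finset.Ioc a (a + k), S ω j := by
  induction k with
  | zero => simp
  | succ k ih =>
    rw [← add_assoc, Iw_succ, Finset.sum_Ioc_succ_top (by omega), ← ih]
    ring

theorem Iw_sub' (ω : ℕ → ℝ) (m k : ℕ) :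
    Iw ω (m + k) - Iw ω m - k * S ω m = ∑ j ∈ Finset.Icc 1 k, (S ω (m + j) - S ω m) := by
  induction k with
  | zero => simp
  | succ k ih =>
    rw [← add_assoc, Iw_succ, Finset.sum_Icc_succ_top (by omega), ← ih]
    push_cast
    rw [← add_assoc]
    ring

theorem S_sub (ω : ℕ → ℝ) (m j : ℕ) : S ω (m + j) - S ω m = ∑ i ∈ Finset.Icc 1 j, ω (i + m) := by
  induction j with
  | zero => simp
  | succ j ih =>
    rw [← add_assoc, S_succ, Finset.sum_Icc_succ_top (by omega), ← ih,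
      show j + 1 + m = m + j + 1 by omega]
    ring

theorem S_T (ω : ℕ → ℝ) (m j : ℕ) : S (T m ω) j = -(S ω (m + j) - S ω m) := by
  rw [S_sub]
  unfold S T
  rw [Finset.sum_neg_distrib]

theorem Iw_T (ω : ℕ → ℝ) (m k : ℕ) :
    Iw (T m ω) k = -∑ j ∈ Finset.Icc 1 k, (S ω (m + j) - S ω m) := by
  unfold Iw
  rw [← Finset.sum_neg_distrib]
  exact Finset.sum_congr rfl fun j _ => S_T ω m j

theorem S_meas (j : ℕ) : Measurable fun ω : ℕ → ℝ => S ω j := by
  unfold S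
  exact Finset.measurable_sum _ fun i _ => measurable_pi_apply i

theorem Iw_meas (k : ℕ) : Measurable fun ω : ℕ → ℝ => Iw ω k := by
  unfold Iw
  exact Finset.measurable_sum _ fun i _ => S_meas i

/-- the backward event -/
def Bk (m : ℕ) (B : ℝ) : Set (ℕ → ℝ) :=
  {ω | 0 ≤ S ω m ∧ S ω m ≤ B ∧ ∀ k ∈ Finset.Icc 1 m, 0 ≤ ∑ j ∈ Finset.Ioc (m - k) m, S ω j}

/-- the forward event -/
def Fw (m l : ℕ) : Set (ℕ → ℝ) :=
  {ω | ∀ k ∈ Finset.Icc 1 l, ∑ j ∈ Finset.Icc 1 k, (S ω (m + j) - S ω m) ≤ 0}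

/-- positivity of the integrated walk -/
def Po (l : ℕ) : Set (ℕ → ℝ) := {ω | ∀ j ∈ Finset.Icc 1 l, 0 ≤ Iw ω j}

theorem meas_all (s : Finset ℕ) (P : ℕ → Set (ℕ → ℝ)) (h : ∀ i ∈ s, MeasurableSet (P i)) :
    MeasurableSet {ω | ∀ i ∈ s, ω ∈ P i} := by
  have e : {ω | ∀ i ∈ s, ω ∈ P i} = ⋂ i ∈ s, P i := by
    ext ω
    simp
  rw [e]
  exact MeasurableSet.biInter s.countable_toSet h

theorem Po_meas (l : ℕ) : MeasurableSet (Po l) :=
  meas_all _ (fun j => {ω | 0 ≤ Iw ω j}) fun j _ => measurableSet_le measurable_const (Iw_meas j)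

theorem Bk_meas (m : ℕ) (B : ℝ) : MeasurableSet (Bk m B) := by
  have h1 : MeasurableSet {ω : ℕ → ℝ | 0 ≤ S ω m} := measurableSet_le measurable_const (S_meas m)
  have h2 : MeasurableSet {ω : ℕ → ℝ | S ω m ≤ B} := measurableSet_le (S_meas m) measurable_const
  have h3 : MeasurableSet {ω : ℕ → ℝ | ∀ k ∈ Finset.Icc 1 m,
      0 ≤ ∑ j ∈ Finset.Ioc (m - k) m, S ω j} :=
    meas_all _ (fun k => {ω | 0 ≤ ∑ j ∈ Finset.Ioc (m - k) m, S ω j}) fun k _ =>
      measurableSet_le measurable_const (Finset.measurable_sum _ fun i _ => S_meas i)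
  exact h1.inter (h2.inter h3)

theorem Fw_eq (m l : ℕ) : Fw m l = T m ⁻¹' Po l := by
  ext ω
  show (∀ k ∈ Finset.Icc 1 l, _) ↔ (∀ k ∈ Finset.Icc 1 l, 0 ≤ Iw (T m ω) k)
  constructor
  · intro h k hk
    rw [Iw_T]
    linarith [h k hk]
  · intro h k hk
    have := h k hk
    rw [Iw_T] at this
    linarith

theorem Fw_real (h1 : S_L3) (m l : ℕ) : PP.real (Fw m l) = aI l := by
  rw [Fw_eq, Measure.real, (mp_T h1 m).measure_preimage (Po_meas l).nullMeasurableSet]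
  rfl

theorem Fw_meas (h1 : S_L3) (m l : ℕ) : MeasurableSet (Fw m l) := by
  rw [Fw_eq]
  exact (mp_T h1 m).measurable (Po_meas l)

theorem S_congr {ω ω' : ℕ → ℝ} {j : ℕ} (h : ∀ i ∈ Finset.Icc 1 j, ω i = ω' i) :
    S ω j = S ω' j := by
  unfold S
  exact Finset.sum_congr rfl h

theorem Bk_dep (m : ℕ) (B : ℝ) : DepOn (Finset.Icc 1 m) (Bk m B) := by
  intro ω ω' h hω
  have hS : ∀ j ≤ m, S ω j = S ω' j := fun j hj => S_congr fun i hi =>
    h i (Finset.Icc_subset_Icc_right hj hi)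
  obtain ⟨h1, h2, h3⟩ := hω
  refine ⟨by rw [← hS m le_rfl]; exact h1, by rw [← hS m le_rfl]; exact h2, fun k hk => ?_⟩
  have := h3 k hk
  rwa [Finset.sum_congr rfl fun j hj => hS j (Finset.mem_Ioc.1 hj).2] at this

theorem Fw_dep (m l : ℕ) : DepOn (Finset.Icc (m + 1) (m + l)) (Fw m l) := by
  intro ω ω' h hω k hk
  have hk' := Finset.mem_Icc.1 hk
  have := hω k hk
  rwa [Finset.sum_congr rfl fun j hj => ?_] at this
  have hj' := Finset.mem_Icc.1 hj
  rw [S_sub, S_sub]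
  refine Finset.sum_congr rfl fun i hi => h _ ?_
  have hi' := Finset.mem_Icc.1 hi
  rw [Finset.mem_Icc]
  omega

theorem half (h1 : S_L3) (n : ℕ) : PP.real {ω | 0 < S ω n} ≤ 1 / 2 := by
  have hm1 : MeasurableSet {ω : ℕ → ℝ | 0 < S ω n} := measurableSet_lt measurable_const (S_meas n)
  have hm2 : MeasurableSet {ω : ℕ → ℝ | S ω n < 0} := measurableSet_lt (S_meas n) measurable_const
  have e : {ω : ℕ → ℝ | S ω n < 0} = (fun ω : ℕ → ℝ => fun j => - ω j) ⁻¹' {ω | 0 < S ω n} := by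
    ext ω
    show S ω n < 0 ↔ 0 < S (fun j => -ω j) n
    unfold S
    rw [Finset.sum_neg_distrib]
    constructor
    · intro h; linarith
    · intro h; linarith
  have h2 : PP.real {ω : ℕ → ℝ | S ω n < 0} = PP.real {ω : ℕ → ℝ | 0 < S ω n} := by
    rw [e, Measure.real, (mp_neg h1).measure_preimage hm1.nullMeasurableSet]
    rfl
  have hd : Disjoint {ω : ℕ → ℝ | 0 < S ω n} {ω : ℕ → ℝ | S ω n < 0} := by
    rw [Set.disjoint_left]
    intro ω ha hb
    exact lt_asymm (show 0 < S ω n from ha) hb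
  have h3 := measureReal_union (μ := PP) hd hm2
  have h4 : PP.real ({ω : ℕ → ℝ | 0 < S ω n} ∪ {ω : ℕ → ℝ | S ω n < 0}) ≤ 1 :=
    measureReal_le_one
  linarith

theorem tail (B : ℝ) (j : ℕ) : PP.real {ω | B < |ω j|} = lap.real {x | B < |x|} := by
  have hm : MeasurableSet {x : ℝ | B < |x|} :=
    measurableSet_lt measurable_const measurable_id.abs
  have h := Measure.infinitePi_map_eval (fun _ : ℕ => lap) j
  rw [← h, Measure.real, Measure.real, Measure.map_apply (measurable_pi_apply j) hm]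
  rfl

theorem cover (n : ℕ) (B : ℝ) (hn : 1 ≤ n) : (Set.univ : Set (ℕ → ℝ)) ⊆
    {ω | 0 < S ω n} ∪ ((⋃ j ∈ Finset.Icc 1 n, {ω | B < |ω j|}) ∪
      (Fw 0 n ∪ ⋃ m ∈ Finset.Ico 1 n, (Bk m B ∩ Fw m (n - m)))) := by
  intro ω _
  by_cases h1 : 0 < S ω n
  · exact Or.inl h1
  by_cases h2 : ∃ j ∈ Finset.Icc 1 n, B < |ω j|
  · obtain ⟨j, hj, hB⟩ := h2
    refine Or.inr (Or.inl ?_)
    rw [Set.mem_iUnion₂]
    exact ⟨j, hj, hB⟩
  right
  right
  push Not at h1 h2
  obtain ⟨m, hm, hmax⟩ := Finset.exists_max_image (Finset.range n) (fun k => Iw ω k)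
    ⟨0, Finset.mem_range.2 (by omega)⟩
  have hm' := Finset.mem_range.1 hm
  have hle : ∀ k ≤ n, Iw ω k ≤ Iw ω m := by
    intro k hk
    rcases hk.lt_or_eq with hk | hk
    · exact hmax k (Finset.mem_range.2 hk)
    · subst hk
      obtain ⟨l, rfl⟩ : ∃ l, k = l + 1 := ⟨k - 1, by omega⟩
      rw [Iw_succ]
      have := hmax l (Finset.mem_range.2 (by omega))
      linarith
  have hfw : 0 ≤ S ω m → ω ∈ Fw m (n - m) := by
    intro hS k hk
    have hk' := Finset.mem_Icc.1 hk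
    rw [← Iw_sub']
    have a1 := hle (m + k) (by omega)
    have a2 : (0 : ℝ) ≤ k * S ω m := mul_nonneg (Nat.cast_nonneg _) hS
    linarith
  rcases Nat.eq_zero_or_pos m with h0 | h0
  · left
    subst h0
    have := hfw (by unfold S; simp)
    simpa using this
  · right
    rw [Set.mem_iUnion₂]
    refine ⟨m, Finset.mem_Ico.2 ⟨h0, hm'⟩, ?_⟩
    have hS0 : 0 ≤ S ω m := by
      obtain ⟨l, rfl⟩ : ∃ l, m = l + 1 := ⟨m - 1, by omega⟩
      have a1 := hle l (by omega)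
      rw [Iw_succ] at a1
      linarith
    refine ⟨⟨hS0, ?_, ?_⟩, hfw hS0⟩
    · have a1 := hle (m + 1) (by omega)
      rw [Iw_succ, S_succ] at a1
      have a2 := h2 (m + 1) (Finset.mem_Icc.2 ⟨by omega, by omega⟩)
      have a3 := neg_abs_le (ω (m + 1))
      linarith
    · intro k hk
      have hk' := Finset.mem_Icc.1 hk
      have a1 := Iw_sub ω (m - k) k
      rw [Nat.sub_add_cancel hk'.2] at a1
      rw [← a1]
      have a2 := hle (m - k) (by omega)
      linarith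

end Pool.Agent.H261.GP174.AM

namespace Pool.Agent.H261.GP174

open Pool.Agent.H174.GP AM

theorem gp_argmax (h1 : S_L3) (h2 : S_indep) : Pool.Agent.H174.GP.S_argmax := by
  intro n B hn _
  have hc := measureReal_mono (μ := PP) (cover n B hn)
  rw [probReal_univ] at hc
  have u1 := measureReal_union_le (μ := PP) {ω : ℕ → ℝ | 0 < S ω n}
    ((⋃ j ∈ Finset.Icc 1 n, {ω | B < |ω j|}) ∪
      (Fw 0 n ∪ ⋃ m ∈ Finset.Ico 1 n, (Bk m B ∩ Fw m (n - m))))
  have u2 := measureReal_union_le (μ := PP) (⋃ j ∈ Finset.Icc 1 n, {ω : ℕ → ℝ | B < |ω j|})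
      (Fw 0 n ∪ ⋃ m ∈ Finset.Ico 1 n, (Bk m B ∩ Fw m (n - m)))
  have u3 := measureReal_union_le (μ := PP) (Fw 0 n)
    (⋃ m ∈ Finset.Ico 1 n, (Bk m B ∩ Fw m (n - m)))
  have u4 := measureReal_biUnion_finset_le (μ := PP) (Finset.Icc 1 n)
    (fun j => {ω : ℕ → ℝ | B < |ω j|})
  have u5 := measureReal_biUnion_finset_le (μ := PP) (Finset.Ico 1 n)
    (fun m => Bk m B ∩ Fw m (n - m))
  have e4 : ∑ j ∈ Finset.Icc 1 n, PP.real {ω : ℕ → ℝ | B < |ω j|}
      = n * PP.real {ω | B < |ω 1|} := by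
    rw [Finset.sum_congr rfl fun j _ => (tail B j).trans (tail B 1).symm, Finset.sum_const,
      Nat.card_Icc, nsmul_eq_mul]
    simp
  have e5 : ∑ m ∈ Finset.Ico 1 n, PP.real (Bk m B ∩ Fw m (n - m))
      = ∑ m ∈ Finset.Ico 1 n, bI m B * aI (n - m) := by
    refine Finset.sum_congr rfl fun m hm => ?_
    have hm' := Finset.mem_Ico.1 hm
    rw [h2 (Finset.Icc 1 m) (Finset.Icc (m + 1) (m + (n - m))) (Bk m B) (Fw m (n - m)) ?_
      (Bk_meas m B) (Fw_meas h1 m _) (Bk_dep m B) (Fw_dep m _), Fw_real h1]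
    · rfl
    · rw [Finset.disjoint_left]
      intro x hx hx'
      rw [Finset.mem_Icc] at hx hx'
      omega
  have e3 := Fw_real h1 0 n
  have e1 := half h1 n
  rw [e4] at u4
  rw [e5] at u5
  rw [e3] at u3
  linarith

end Pool.Agent.H261.GP174
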